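import Pool.Agent.H.MP_061dbe_an.A

set_option autoImplicit false

open Metric Set

namespace Pool.Agent.Results.MP_061dbe_an.No

def InA (f : ℂ → ℂ) : Prop := DifferentiableOn ℂ f (ball 0 1) ∧ f 0 = 0 ∧ deriv f 0 = 1

def Sig (δ : ℝ) (f g : ℂ → ℂ) : Prop := InA g ∧ ∀ z ∈ ball (0 : ℂ) 1, z ≠ 0 →
  ‖(deriv g z - deriv f z) - (g z - f z) / z‖ + ‖(deriv g z - deriv f z) + (g z - f z) / z‖ < 2 * δ

noncomputable def coef (f : ℂ → ℂ) (n : ℕ) : ℂ := iteratedDeriv n f 0 / n.factorial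

theorem result (x : ℂ) (hx : ‖x‖ ≤ 1 / 8) : ∃ (g h : ℂ → ℂ) (z₀ : ℂ),
    Sig (1 / (1 + ‖x‖) ^ 2) (fun z => z / (1 - x * z)) g ∧ InA h ∧ InjOn h (ball 0 1) ∧
      0 < ‖z₀‖ ∧ ‖z₀‖ < 1 ∧ HasSum (fun n => coef g n * coef h n * z₀ ^ n) 0 :=
  Pool.Agent.H.MP_061dbe_an.main x hx

end Pool.Agent.Results.MP_061dbe_an.No
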